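import Pool.Agent.H6.OC.J1S

/-!
Heavy rows: from short blocks outside an exceptional set to all longer blocks.
-/

set_option autoImplicit false

namespace Pool.OC

open Finset Real
open Pool.Agent.H49.Ent Pool.Agent.H32.Dense Pool.STK Pool.KAF

/-- The number of the short blocks inside a longer block. -/
theorem block_inside (a h' h : ℕ) (h0 : 0 < h) :
    ((h' : ℝ) - 2 * h) ≤ h * (Finset.Ico ((a + h - 1) / h) ((a + h') / h)).card ∧
    ∀ j ∈ Finset.Ico ((a + h - 1) / h) ((a + h') / h), a ≤ j * h ∧ (j + 1) * h ≤ a + h' := by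
  constructor
  · rw [Nat.card_Ico]
    have h1 := Nat.div_add_mod (a + h - 1) h
    have h2 := Nat.div_add_mod (a + h') h
    have h3 := Nat.mod_lt (a + h - 1) h0
    have h4 := Nat.mod_lt (a + h') h0
    set A := (a + h - 1) / h with hA
    set B := (a + h') / h with hB
    have h5 : ((h * A : ℕ) : ℝ) ≤ a + h := by
      have : h * A ≤ a + h := by omega
      exact_mod_cast this
    have h6 : (a : ℝ) + h' ≤ ((h * B : ℕ) : ℝ) + h := by
      have : a + h' ≤ h * B + h := by omega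
      exact_mod_cast this
    have h7 : (B : ℝ) - A ≤ ((B - A : ℕ) : ℝ) := by
      rw [sub_le_iff_le_add]
      have : B ≤ B - A + A := by omega
      exact_mod_cast this
    have h8 : (h : ℝ) * (B - A) ≤ h * ((B - A : ℕ) : ℝ) :=
      mul_le_mul_of_nonneg_left h7 (Nat.cast_nonneg _)
    push_cast at h5 h6
    linarith
  · intro j hj
    rw [Finset.mem_Ico] at hj
    constructor
    · by_contra hcon
      have h1 : j * h + h ≤ a + h - 1 := by omega
      have h2 : j + 1 ≤ (a + h - 1) / h := by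
        rw [Nat.le_div_iff_mul_le h0, add_mul, one_mul]
        exact h1
      omega
    · have h1 : j + 1 ≤ (a + h') / h := hj.2
      rwa [Nat.le_div_iff_mul_le h0] at h1

/-- **J1C.** If half of the short blocks inside every long block are not exceptional then all the
long blocks contain many heavy rows. -/
theorem j1c {Ω : Type} [Fintype Ω] (P : Ω → ℝ) (hP : ∀ ω, 0 ≤ P ω) (J : Ω → Set ℕ)
    (X h h' : ℕ) (u π₁ : ℝ) (Bd : Set ℕ) (hu : 0 ≤ u) (hhh : h ≤ h')
    (hden : ∀ j' : ℕ, (j' + 1) * h' ≤ X → ∃ F : Finset ℕ, (∀ j ∈ F, j ∉ Bd ∧ j' * h' ≤ j * h ∧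
      (j + 1) * h ≤ (j' + 1) * h') ∧ (h' : ℝ) / 4 ≤ h * F.card)
    (hJ : Pr P {ω | ∃ j : ℕ, j ∉ Bd ∧ (j + 2) * h ≤ X ∧
      (Set.ncard {r | r ∈ J ω ∧ j * h ≤ r ∧ r < (j + 1) * h} : ℝ) < u * h} ≤ π₁) :
    Pr P {ω | ∃ j : ℕ, (j + 2) * h' ≤ X ∧
      (Set.ncard {r | r ∈ J ω ∧ j * h' ≤ r ∧ r < (j + 1) * h'} : ℝ) < u / 4 * h'} ≤ π₁ := by
  classical
  refine le_trans (Pr_mono hP fun ω _ hω => ?_) hJ
  obtain ⟨j', hj', hw⟩ := hω
  by_contra hcon
  simp only [Set.mem_ofPred_eq, not_exists, not_and, not_lt] at hcon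
  have hj1 : (j' + 1) * h' ≤ X := le_trans (Nat.mul_le_mul_right _ (by omega)) hj'
  obtain ⟨F, hF, hc⟩ := hden j' hj1
  have hX2 : (j' + 2) * h' = (j' + 1) * h' + h' := by ring
  have h1 : ∀ j ∈ F, u * h ≤ (Set.ncard {r | r ∈ J ω ∧ j * h ≤ r ∧ r < (j + 1) * h} : ℝ) := by
    intro j hj
    obtain ⟨a1, a2, a3⟩ := hF j hj
    refine hcon j a1 ?_
    have : (j + 2) * h = (j + 1) * h + h := by ring
    omega
  -- the blocks are disjoint subsets of the long block
  have hfin : ∀ a b : ℕ, {r | r ∈ J ω ∧ a ≤ r ∧ r < b}.Finite := fun a b =>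
    (Set.finite_Ico a b).subset fun r hr => ⟨hr.2.1, hr.2.2⟩
  set G : ℕ → Finset ℕ := fun j => (hfin (j * h) ((j + 1) * h)).toFinset with hG
  have h2 : ∀ j, (Set.ncard {r | r ∈ J ω ∧ j * h ≤ r ∧ r < (j + 1) * h} : ℝ) = (G j).card := by
    intro j
    rw [Set.ncard_eq_toFinset_card _ (hfin (j * h) ((j + 1) * h))]
  have h3 : (Set.ncard {r | r ∈ J ω ∧ j' * h' ≤ r ∧ r < (j' + 1) * h'} : ℝ) =
      (hfin (j' * h') ((j' + 1) * h')).toFinset.card := by
    rw [Set.ncard_eq_toFinset_card _ (hfin (j' * h') ((j' + 1) * h'))]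
  have h4 : F.biUnion G ⊆ (hfin (j' * h') ((j' + 1) * h')).toFinset := by
    intro r hr
    rw [Finset.mem_biUnion] at hr
    obtain ⟨j, hj, hr⟩ := hr
    rw [hG, Set.Finite.mem_toFinset] at hr
    rw [Set.Finite.mem_toFinset]
    obtain ⟨a1, a2, a3⟩ := hF j hj
    exact ⟨hr.1, le_trans a2 hr.2.1, lt_of_lt_of_le hr.2.2 a3⟩
  have h5 : (F.biUnion G).card = ∑ j ∈ F, (G j).card := by
    refine Finset.card_biUnion fun i _ j _ hij => ?_
    show Disjoint (G i) (G j)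
    rw [Finset.disjoint_left]
    intro r hri hrj
    rw [hG, Set.Finite.mem_toFinset] at hri hrj
    have e1 := hri.2
    have e2 := hrj.2
    rcases Nat.lt_or_gt_of_ne hij with hlt | hlt
    · have : (i + 1) * h ≤ j * h := Nat.mul_le_mul_right _ hlt
      omega
    · have : (j + 1) * h ≤ i * h := Nat.mul_le_mul_right _ hlt
      omega
  have h6 : (F.card : ℝ) * (u * h) ≤ ((F.biUnion G).card : ℝ) := by
    rw [h5]
    push_cast
    calc (F.card : ℝ) * (u * h) = ∑ _j ∈ F, u * h := by rw [sum_const, nsmul_eq_mul]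
      _ ≤ _ := Finset.sum_le_sum fun j hj => by rw [← h2]; exact h1 j hj
  have h7 : ((F.biUnion G).card : ℝ) ≤
      (Set.ncard {r | r ∈ J ω ∧ j' * h' ≤ r ∧ r < (j' + 1) * h'} : ℝ) := by
    rw [h3]
    exact_mod_cast Finset.card_le_card h4
  have h8 : u * ((h' : ℝ) / 4) ≤ u * (h * F.card) := mul_le_mul_of_nonneg_left hc hu
  linarith

/-- The density hypothesis of `j1c` from: half of the short blocks are not exceptional. -/
theorem den_of_half (h h' : ℕ) (Bd : Set ℕ) (h0 : 0 < h) (h4 : 4 * h ≤ h') (j' : ℕ)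
    (hd : ∀ F : Finset ℕ, (∀ j, j ∈ F ↔ j' * h' ≤ j * h ∧ (j + 1) * h ≤ (j' + 1) * h') →
      ∃ F' ⊆ F, (∀ j ∈ F', j ∉ Bd) ∧ (F.card : ℝ) / 2 ≤ F'.card) :
    ∃ F : Finset ℕ, (∀ j ∈ F, j ∉ Bd ∧ j' * h' ≤ j * h ∧
      (j + 1) * h ≤ (j' + 1) * h') ∧ (h' : ℝ) / 4 ≤ h * F.card := by
  classical
  have hja : (j' + 1) * h' = j' * h' + h' := by ring
  set F : Finset ℕ := (range ((j' + 1) * h')).filter
    (fun j => j' * h' ≤ j * h ∧ (j + 1) * h ≤ (j' + 1) * h') with hF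
  have hFm : ∀ j, j ∈ F ↔ j' * h' ≤ j * h ∧ (j + 1) * h ≤ (j' + 1) * h' := by
    intro j
    rw [hF, Finset.mem_filter, Finset.mem_range]
    constructor
    · exact fun x => x.2
    · intro x
      refine ⟨?_, x⟩
      have : j + 1 ≤ (j + 1) * h := Nat.le_mul_of_pos_right _ h0
      omega
  obtain ⟨F', hs, hB, hc⟩ := hd F hFm
  refine ⟨F', fun j hj => ⟨hB j hj, (hFm j).1 (hs hj)⟩, ?_⟩
  obtain ⟨b1, b2⟩ := block_inside (j' * h') h' h h0
  have h5 : (Finset.Ico ((j' * h' + h - 1) / h) ((j' * h' + h') / h)).card ≤ F.card := by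
    refine Finset.card_le_card fun j hj => ?_
    rw [hFm, hja]
    exact b2 j hj
  have h6 : (h : ℝ) * (Finset.Ico ((j' * h' + h - 1) / h) ((j' * h' + h') / h)).card ≤
      h * F.card := mul_le_mul_of_nonneg_left (by exact_mod_cast h5) (Nat.cast_nonneg _)
  have h7 : (h : ℝ) * ((F.card : ℝ) / 2) ≤ h * F'.card :=
    mul_le_mul_of_nonneg_left hc (Nat.cast_nonneg _)
  have h8 : 4 * (h : ℝ) ≤ h' := by exact_mod_cast h4
  linarith

end Pool.OC
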