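import Pool.Agent.H6.OC.J1S
import Pool.Agent.H86.OC.RASDefs
import Pool.Agent.H48.M5.Defs

/-!
(J1) for the rows `r ≤ X` of weight at least `c / 16`, in the three typings.
-/

set_option autoImplicit false

namespace Pool.OC

open Finset Real
open Pool.Agent.H49.Ent Pool.Agent.H32.Dense Pool.STK Pool.KAF Pool.KAL Pool.KX Pool.KAL.TI

theorem wrow_eq {Ω θ : Type} [Fintype Ω] (p : Ω → ℝ) (N : Ω → ℤ) (t : Ω → θ)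
    (X lev K : ℕ) (D : ℝ) (ω : Ω) : wrow p N t X lev K D ω = wtG p N t X lev K D ω := rfl

/-- (J1), raw form: the rows `r ≤ X` of weight at least `c / 16`. -/
theorem j1_raw (c D : ℝ) (K k : ℕ) (hc : 0 < c) (hD : 0 ≤ D)
    (hK : 8 * (D + Real.log 2) ≤ c * (K * Real.log 2)) (κ π₁ : ℝ) (hκ : 0 < κ)
    (hπ : 0 < π₁) :
    ∃ (π₀ : ℝ) (X₀ : ℕ), 0 < π₀ ∧ ∀ (Ω θ : Type) [Fintype Ω] (p : Ω → ℝ) (N : Ω → ℤ)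
      (T : Ω → θ) (X : ℕ) (Bd : Set ℕ), IsLaw p → X₀ ≤ X →
      (∀ j : ℕ, j ∉ Bd → (j + 1) * ⌊κ * X⌋₊ ≤ X → ∀ E : Set Ω, π₀ ≤ Pr p E →
        CH (cond p (fun ω => ω ∈ E) True) (fun ω => N ω / 2 ^ (X - (j + 1) * ⌊κ * X⌋₊))
          (fun ω => (N ω / 2 ^ (X - j * ⌊κ * X⌋₊), T ω)) ≤
          (1 - c) * ⌊κ * X⌋₊ * Real.log 2) →
      Pr p {ω | ∃ j : ℕ, j ∉ Bd ∧ (j + 2) * ⌊κ * X⌋₊ ≤ X ∧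
        (Set.ncard {r | r ∈ {r : ℕ | r ≤ X ∧ c / 16 ≤ wrow p N T X (X + k + 1 - r) K D ω} ∧
          j * ⌊κ * X⌋₊ ≤ r ∧ r < (j + 1) * ⌊κ * X⌋₊} : ℝ) < c / 16 * ⌊κ * X⌋₊} ≤ π₁ := by
  obtain ⟨π₀, X₀, h0, hA⟩ := j1_core c D K k hc hD hK κ π₁ hκ hπ
  refine ⟨π₀, X₀, h0, fun Ω θ _ p N T X Bd hlaw hX h5 => ?_⟩
  refine le_trans (Pr_mono hlaw.nonneg fun ω _ hω => ?_) (hA Ω θ p N T X Bd hlaw hX h5)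
  obtain ⟨j, hB, hj, hw⟩ := hω
  refine ⟨j, hB, hj, ?_⟩
  by_contra hcon
  rw [not_lt] at hcon
  refine absurd hw (not_lt.2 ?_)
  have e := ncard_of_sum (fun r => wtG p N T X (X + k + 1 - r) K D ω)
    (fun r => wtG_le_one ..) (c / 16) (by positivity)
    (j * ⌊κ * X⌋₊) ⌊κ * X⌋₊ (by
      rw [show j * ⌊κ * X⌋₊ + ⌊κ * X⌋₊ = (j + 1) * ⌊κ * X⌋₊ by ring]
      linarith)
  rw [show j * ⌊κ * X⌋₊ + ⌊κ * X⌋₊ = (j + 1) * ⌊κ * X⌋₊ by ring] at e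
  refine e.trans (le_of_eq ?_)
  congr 2
  ext r
  simp only [Set.mem_ofPred_eq, wrow_eq]
  have h2 : (j + 1) * ⌊κ * X⌋₊ ≤ (j + 2) * ⌊κ * X⌋₊ := Nat.mul_le_mul_right _ (by omega)
  constructor
  · rintro ⟨a1, a2, a3⟩
    exact ⟨⟨by omega, a1⟩, a2, a3⟩
  · rintro ⟨⟨_, a1⟩, a2, a3⟩
    exact ⟨a1, a2, a3⟩

/-- **(J1)**, the data of helper48. -/
theorem j1_m5 (c D : ℝ) (K k : ℕ) (hc : 0 < c) (hD : 0 ≤ D)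
    (hK : 8 * (D + Real.log 2) ≤ c * (K * Real.log 2)) (κ π₁ : ℝ) (hκ : 0 < κ)
    (hπ : 0 < π₁) :
    ∃ (π₀ : ℝ) (X₀ : ℕ), 0 < π₀ ∧ ∀ (d : Pool.M5.RDat) (Bd : Set ℕ), IsLaw d.P → X₀ ≤ d.X →
      d.H5 c κ π₀ Bd →
      d.J1 (fun ω => {r : ℕ | r ≤ d.X ∧ c / 16 ≤ wrow d.P d.N d.T d.X (d.X + k + 1 - r) K D ω})
        ⌊κ * d.X⌋₊ (c / 16) π₁ Bd := by
  obtain ⟨π₀, X₀, h0, hA⟩ := j1_raw c D K k hc hD hK κ π₁ hκ hπ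
  exact ⟨π₀, X₀, h0, fun d Bd hlaw hX h5 =>
    hA d.Om d.Tau d.P d.N d.T d.X Bd hlaw hX fun j hB hj E hE => h5 j hB hj E hE⟩

/-- **(J1)**, the data of helper28. -/
theorem j1_l1 (c D : ℝ) (K k : ℕ) (hc : 0 < c) (hD : 0 ≤ D)
    (hK : 8 * (D + Real.log 2) ≤ c * (K * Real.log 2)) (κ π₁ : ℝ) (hκ : 0 < κ)
    (hπ : 0 < π₁) :
    ∃ (π₀ : ℝ) (X₀ : ℕ), 0 < π₀ ∧ ∀ (d : Pool.L1.RD) (Bd : Set ℕ), IsLaw d.P → X₀ ≤ d.X →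
      d.H5 c κ π₀ Bd →
      Pool.L1.J1 d
        (fun ω => {r : ℕ | r ≤ d.X ∧ c / 16 ≤ wrow d.P d.N d.T d.X (d.X + k + 1 - r) K D ω})
        ⌊κ * d.X⌋₊ (c / 16) π₁ Bd := by
  obtain ⟨π₀, X₀, h0, hA⟩ := j1_raw c D K k hc hD hK κ π₁ hκ hπ
  exact ⟨π₀, X₀, h0, fun d Bd hlaw hX h5 =>
    hA d.Om d.Tau d.P d.N d.T d.X Bd hlaw hX fun j hB hj E hE => h5 j hB hj E hE⟩

/-- **(J1)**, the data of theorem OC. -/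
theorem j1_oc (c D : ℝ) (K k : ℕ) (hc : 0 < c) (hD : 0 ≤ D)
    (hK : 8 * (D + Real.log 2) ≤ c * (K * Real.log 2)) (κ π₁ : ℝ) (hκ : 0 < κ)
    (hπ : 0 < π₁) :
    ∃ (π₀ : ℝ) (X₀ : ℕ), 0 < π₀ ∧ ∀ d : Dat, IsLaw d.P → X₀ ≤ d.X → d.H5 c κ π₀ →
      J1 d (fun ω => {r : ℕ | r ≤ d.X ∧ c / 16 ≤ wrow d.P d.N d.T d.X (d.X + k + 1 - r) K D ω})
        ⌊κ * d.X⌋₊ (c / 16) π₁ := by
  obtain ⟨π₀, X₀, h0, hA⟩ := j1_raw c D K k hc hD hK κ π₁ hκ hπ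
  refine ⟨π₀, X₀, h0, fun d hlaw hX h5 => ?_⟩
  refine le_trans (Pr_mono hlaw.nonneg fun ω _ hω => ?_)
    (hA d.Om d.Tau d.P d.N d.T d.X ∅ hlaw hX fun j _ hj E hE => h5 j hj E hE)
  obtain ⟨j, hj, hw⟩ := hω
  exact ⟨j, fun h => h, hj, hw⟩

end Pool.OC
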