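import Pool.Agent.H6.OC.NF
import Pool.Agent.H97.OC.Defs
import Pool.Agent.H28.L1.Row0

/-!
Theorem OC, row J1D: for most samples all blocks of rows contain many rows of large weight.
-/

set_option autoImplicit false

namespace Pool.OC

open Finset Real
open Pool.Agent.H49.Ent Pool.Agent.H32.Dense Pool.STK Pool.KAF Pool.KAL Pool.KX Pool.KAL.TI

open Classical in
/-- The weight of a window with the grid of the shifts. -/
noncomputable def wtG {Ω θ : Type} [Fintype Ω] (p : Ω → ℝ) (N : Ω → ℤ) (t : Ω → θ)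
    (X lev K : ℕ) (D : ℝ) (ω : Ω) : ℝ :=
  (∑ u ∈ range (2 ^ X),
    if rowH p (fun v => N v + (u : ℤ)) lev K t ω ≤ K * Real.log 2 - D then (1 : ℝ) else 0) / 2 ^ X

section

variable {Ω θ : Type} [Fintype Ω]

theorem wtG_eq (p : Ω → ℝ) (N : Ω → ℤ) (t : Ω → θ) (X lev K : ℕ) (D : ℝ) (ω : Ω) :
    wtG p N t X lev K D ω =
      wtU p N t K D ((range (2 ^ X)).image (fun u : ℕ => (u : ℤ))) lev ω := by
  classical
  unfold wtG wtU
  rw [Finset.sum_image (fun a _ b _ h => by exact_mod_cast h),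
    Finset.card_image_of_injective _ (fun a b h => by exact_mod_cast h), card_range]
  push_cast
  rfl

theorem wtG_nonneg (p : Ω → ℝ) (N : Ω → ℤ) (t : Ω → θ) (X lev K : ℕ) (D : ℝ) (ω : Ω) :
    0 ≤ wtG p N t X lev K D ω := by
  rw [wtG_eq]; exact wtU_nonneg ..

theorem wtG_le_one (p : Ω → ℝ) (N : Ω → ℤ) (t : Ω → θ) (X lev K : ℕ) (D : ℝ) (ω : Ω) :
    wtG p N t X lev K D ω ≤ 1 := by
  rw [wtG_eq]; exact wtU_le_one ..

end

/-- Most samples: all blocks of rows contain many rows of large weight. -/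
theorem j1_core (c D : ℝ) (K k : ℕ) (hc : 0 < c) (hD : 0 ≤ D)
    (hK : 8 * (D + Real.log 2) ≤ c * (K * Real.log 2)) (κ π₁ : ℝ) (hκ : 0 < κ)
    (hπ : 0 < π₁) :
    ∃ (π₀ : ℝ) (X₀ : ℕ), 0 < π₀ ∧ ∀ (Ω θ : Type) [Fintype Ω] (p : Ω → ℝ) (N : Ω → ℤ)
      (T : Ω → θ) (X : ℕ) (Bd : Set ℕ), IsLaw p → X₀ ≤ X →
      (∀ j : ℕ, j ∉ Bd → (j + 1) * ⌊κ * X⌋₊ ≤ X → ∀ E : Set Ω, π₀ ≤ Pr p E →
        CH (cond p (fun ω => ω ∈ E) True) (fun ω => N ω / 2 ^ (X - (j + 1) * ⌊κ * X⌋₊))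
          (fun ω => (N ω / 2 ^ (X - j * ⌊κ * X⌋₊), T ω)) ≤
          (1 - c) * ⌊κ * X⌋₊ * Real.log 2) →
      Pr p {ω | ∃ j : ℕ, j ∉ Bd ∧ (j + 2) * ⌊κ * X⌋₊ ≤ X ∧
        ∑ r ∈ Finset.Ico (j * ⌊κ * X⌋₊) ((j + 1) * ⌊κ * X⌋₊),
          wtG p N T X (X + k + 1 - r) K D ω < c / 8 * ⌊κ * X⌋₊} ≤ π₁ := by
  classical
  set M : ℕ := ⌈2 / κ⌉₊ + 1 with hM
  have hM0 : (0 : ℝ) < M := by rw [hM]; positivity
  have hπ₀ : 0 < π₁ / M := by positivity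
  obtain ⟨h₀, hKh, hblk⟩ := nf_block c (π₁ / M) D hc hπ₀ hD K hK
  refine ⟨π₁ / M, ⌈(h₀ + ⌈8 * (k + 2) / c⌉₊ + 2) / κ⌉₊, hπ₀, ?_⟩
  intro Ω θ _ p N T X Bd hlaw hX h5
  set h : ℕ := ⌊κ * X⌋₊ with hh
  have hXr : ((h₀ : ℝ) + ⌈8 * (k + 2) / c⌉₊ + 2) / κ ≤ X :=
    (Nat.le_ceil _).trans (by exact_mod_cast hX)
  rw [div_le_iff₀ hκ] at hXr
  have hκX : κ * X < h + 1 := Nat.lt_floor_add_one _
  have hh1 : (h : ℝ) ≤ κ * X := Nat.floor_le (by positivity)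
  have hhh : (h₀ : ℝ) + ⌈8 * (k + 2) / c⌉₊ + 1 < h := by linarith
  have hh0 : h₀ ≤ h := by
    have : (h₀ : ℝ) < h := by
      have : (0 : ℝ) ≤ (⌈8 * (k + 2) / c⌉₊ : ℝ) := Nat.cast_nonneg _
      linarith
    exact_mod_cast this.le
  have hkh : (k : ℝ) + 2 ≤ c / 8 * h := by
    have h1 : 8 * ((k : ℝ) + 2) / c ≤ h := by
      have h2 := Nat.le_ceil (8 * ((k : ℝ) + 2) / c)
      have h3 : (0 : ℝ) ≤ h₀ := Nat.cast_nonneg _
      linarith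
    rw [div_le_iff₀ hc] at h1
    linarith
  have hh2 : (1 : ℝ) ≤ h := by
    have : (0 : ℝ) ≤ (⌈8 * (k + 2) / c⌉₊ : ℝ) := Nat.cast_nonneg _
    have h3 : (0 : ℝ) ≤ h₀ := Nat.cast_nonneg _
    linarith
  -- the single blocks
  have hone : ∀ j : ℕ, j ∉ Bd → (j + 2) * h ≤ X →
      Pr p {ω | ∑ r ∈ Finset.Ico (j * h) ((j + 1) * h),
        wtG p N T X (X + k + 1 - r) K D ω < c / 8 * h} ≤ π₁ / M := by
    intro j hjB hj
    have hj1 : (j + 1) * h ≤ X := le_trans (Nat.mul_le_mul_right _ (by omega)) hj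
    have hja : (j + 1) * h = j * h + h := by ring
    set a : ℕ := X - (j + 1) * h with ha
    have hah : a + h = X - j * h := by omega
    have hb := hblk h hh0 Ω θ p N T a
      ((range (2 ^ X)).image (fun u : ℕ => (u : ℤ))) hlaw
      (Finset.Nonempty.image (nonempty_range_iff.2 (by positivity)) _) (by
        intro E hE
        have := h5 j hjB hj1 E hE
        rw [hah]
        push_cast
        rw [← mul_assoc]
        exact this)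
    refine le_trans (Pr_mono hlaw.nonneg ?_) hb.le
    intro ω _ hω
    simp only [Set.mem_ofPred_eq] at hω ⊢
    have e1 : ∑ r ∈ Finset.Ico (j * h) ((j + 1) * h),
        wtG p N T X (X + k + 1 - r) K D ω =
        ∑ i ∈ range h, wtG p N T X (a + (k + 2 + i)) K D ω := by
      rw [Finset.sum_Ico_eq_sum_range, ← Finset.sum_range_reflect]
      rw [show (j + 1) * h - j * h = h by omega]
      refine Finset.sum_congr rfl fun i hi => ?_
      rw [mem_range] at hi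
      rw [show X + k + 1 - (j * h + (h - 1 - i)) = a + (k + 2 + i) by omega]
    have e2 : ∑ i ∈ range (h - K), wtG p N T X (a + i) K D ω ≤
        ∑ i ∈ range h, wtG p N T X (a + (k + 2 + i)) K D ω + (k + 2) := by
      have f1 : ∑ i ∈ range (h - K), wtG p N T X (a + i) K D ω ≤
          ∑ i ∈ range (k + 2 + h), wtG p N T X (a + i) K D ω :=
        Finset.sum_le_sum_of_subset_of_nonneg
          (fun i hi => by rw [mem_range] at hi ⊢; omega) (fun i _ _ => wtG_nonneg ..)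
      rw [Finset.sum_range_add] at f1
      have f2 : ∑ i ∈ range (k + 2), wtG p N T X (a + i) K D ω ≤ k + 2 := by
        calc _ ≤ ∑ _i ∈ range (k + 2), (1 : ℝ) := Finset.sum_le_sum fun i _ => wtG_le_one ..
          _ = k + 2 := by rw [sum_const, card_range, nsmul_eq_mul, mul_one]; push_cast; ring
      linarith
    have e3 : ∑ i ∈ range (h - K), wtU p N T K D
        ((range (2 ^ X)).image (fun u : ℕ => (u : ℤ))) (a + i) ω =
        ∑ i ∈ range (h - K), wtG p N T X (a + i) K D ω :=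
      Finset.sum_congr rfl fun i _ => (wtG_eq ..).symm
    rw [e3]
    rw [e1] at hω
    linarith
  -- the union
  have hsub : {ω | ∃ j : ℕ, j ∉ Bd ∧ (j + 2) * h ≤ X ∧
        ∑ r ∈ Finset.Ico (j * h) ((j + 1) * h),
          wtG p N T X (X + k + 1 - r) K D ω < c / 8 * h} ⊆
      {ω | ∃ j ∈ range M, j ∉ Bd ∧ (j + 2) * h ≤ X ∧
        ∑ r ∈ Finset.Ico (j * h) ((j + 1) * h),
          wtG p N T X (X + k + 1 - r) K D ω < c / 8 * h} := by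
    rintro ω ⟨j, hjB, hj, hw⟩
    refine ⟨j, ?_, hjB, hj, hw⟩
    rw [mem_range]
    have h1 : ((j : ℝ) + 2) * h ≤ X := by exact_mod_cast hj
    have h2 : κ * X ≤ 2 * h := by linarith
    have h3 : ((j : ℝ) + 2) * h * κ ≤ 2 * h := by
      calc _ ≤ (X : ℝ) * κ := mul_le_mul_of_nonneg_right h1 hκ.le
        _ = κ * X := by ring
        _ ≤ _ := h2
    have h4 : ((j : ℝ) + 2) * κ ≤ 2 := by
      have : ((j : ℝ) + 2) * κ * h ≤ 2 * h := by linarith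
      exact le_of_mul_le_mul_right this (by linarith)
    have h5 : (j : ℝ) + 2 ≤ 2 / κ := by rwa [le_div_iff₀ hκ]
    have h6 := Nat.le_ceil (2 / κ)
    have : (j : ℝ) < M := by rw [hM]; push_cast; linarith
    exact_mod_cast this
  refine (Pr_mono hlaw.nonneg fun ω _ hω => hsub hω).trans ?_
  have hun : ∀ n : ℕ, Pr p {ω | ∃ j ∈ range n, j ∉ Bd ∧ (j + 2) * h ≤ X ∧
        ∑ r ∈ Finset.Ico (j * h) ((j + 1) * h),
          wtG p N T X (X + k + 1 - r) K D ω < c / 8 * h} ≤ n * (π₁ / M) := by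
    intro n
    induction n with
    | zero =>
      refine le_of_eq ?_
      rw [Pool.KAF.Pr_eq]
      simp
    | succ n ih =>
      have g1 : {ω | ∃ j ∈ range (n + 1), j ∉ Bd ∧ (j + 2) * h ≤ X ∧
          ∑ r ∈ Finset.Ico (j * h) ((j + 1) * h),
            wtG p N T X (X + k + 1 - r) K D ω < c / 8 * h} ⊆
          {ω | ∃ j ∈ range n, j ∉ Bd ∧ (j + 2) * h ≤ X ∧
          ∑ r ∈ Finset.Ico (j * h) ((j + 1) * h),
            wtG p N T X (X + k + 1 - r) K D ω < c / 8 * h} ∪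
          {ω | n ∉ Bd ∧ (n + 2) * h ≤ X ∧ ∑ r ∈ Finset.Ico (n * h) ((n + 1) * h),
            wtG p N T X (X + k + 1 - r) K D ω < c / 8 * h} := by
        rintro ω ⟨j, hj, hjB, hj2, hw⟩
        rw [mem_range] at hj
        rcases Nat.lt_succ_iff_lt_or_eq.1 hj with hj' | rfl
        · exact Or.inl ⟨j, by rwa [mem_range], hjB, hj2, hw⟩
        · exact Or.inr ⟨hjB, hj2, hw⟩
      have g2 := (Pr_mono hlaw.nonneg fun ω _ hω => g1 hω).trans (Pr_union_le hlaw.nonneg _ _)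
      have g3 : Pr p {ω | n ∉ Bd ∧ (n + 2) * h ≤ X ∧ ∑ r ∈ Finset.Ico (n * h) ((n + 1) * h),
            wtG p N T X (X + k + 1 - r) K D ω < c / 8 * h} ≤ π₁ / M := by
        by_cases hn : n ∉ Bd ∧ (n + 2) * h ≤ X
        · refine le_trans (Pr_mono hlaw.nonneg ?_) (hone n hn.1 hn.2)
          exact fun ω _ hω => hω.2.2
        · refine le_trans (le_of_eq ?_) hπ₀.le
          rw [Pool.KAF.Pr_eq]
          refine Finset.sum_eq_zero fun ω _ => if_neg ?_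
          exact fun hω => hn ⟨hω.1, hω.2.1⟩
      push_cast
      linarith
  refine (hun M).trans (le_of_eq ?_)
  field_simp

/-- **J1D**, theorem OC. -/
theorem j1d (c D : ℝ) (K k : ℕ) (hc : 0 < c) (hD : 0 ≤ D)
    (hK : 8 * (D + Real.log 2) ≤ c * (K * Real.log 2)) (κ π₁ : ℝ) (hκ : 0 < κ)
    (hπ : 0 < π₁) :
    ∃ (π₀ : ℝ) (X₀ : ℕ), 0 < π₀ ∧ ∀ d : Dat, IsLaw d.P → X₀ ≤ d.X → d.H5 c κ π₀ →
      Pr d.P {ω | ∃ j : ℕ, (j + 2) * ⌊κ * d.X⌋₊ ≤ d.X ∧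
        ∑ r ∈ Finset.Ico (j * ⌊κ * d.X⌋₊) ((j + 1) * ⌊κ * d.X⌋₊),
          wtG d.P d.N d.T d.X (d.X + k + 1 - r) K D ω < c / 8 * ⌊κ * d.X⌋₊} ≤ π₁ := by
  obtain ⟨π₀, X₀, h0, hA⟩ := j1_core c D K k hc hD hK κ π₁ hκ hπ
  refine ⟨π₀, X₀, h0, fun d hlaw hX h5 => ?_⟩
  refine le_trans (Pr_mono hlaw.nonneg fun ω _ hω => ?_)
    (hA d.Om d.Tau d.P d.N d.T d.X ∅ hlaw hX fun j _ hj E hE => h5 j hj E hE)
  obtain ⟨j, hj, hw⟩ := hω
  exact ⟨j, fun h => h, hj, hw⟩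

/-- **J1D**, abstract data. -/
theorem j1d0 (c D : ℝ) (K k : ℕ) (hc : 0 < c) (hD : 0 ≤ D)
    (hK : 8 * (D + Real.log 2) ≤ c * (K * Real.log 2)) (κ π₁ : ℝ) (hκ : 0 < κ)
    (hπ : 0 < π₁) :
    ∃ (π₀ : ℝ) (X₀ : ℕ), 0 < π₀ ∧ ∀ (d : Pool.L1.RD) (Bd : Set ℕ), IsLaw d.P → X₀ ≤ d.X →
      d.H5 c κ π₀ Bd →
      Pr d.P {ω | ∃ j : ℕ, j ∉ Bd ∧ (j + 2) * ⌊κ * d.X⌋₊ ≤ d.X ∧
        ∑ r ∈ Finset.Ico (j * ⌊κ * d.X⌋₊) ((j + 1) * ⌊κ * d.X⌋₊),
          wtG d.P d.N d.T d.X (d.X + k + 1 - r) K D ω < c / 8 * ⌊κ * d.X⌋₊} ≤ π₁ := by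
  obtain ⟨π₀, X₀, h0, hA⟩ := j1_core c D K k hc hD hK κ π₁ hκ hπ
  exact ⟨π₀, X₀, h0, fun d Bd hlaw hX h5 =>
    hA d.Om d.Tau d.P d.N d.T d.X Bd hlaw hX fun j hB hj E hE => h5 j hB hj E hE⟩

end Pool.OC
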