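import Pool.Agent.H6.OC.J1D

/-!
Theorem OC, row J1D: the form with the set of the heavy rows.
-/

set_option autoImplicit false

namespace Pool.OC

open Finset Real
open Pool.Agent.H49.Ent Pool.Agent.H32.Dense Pool.STK Pool.KAF Pool.KAL Pool.KX Pool.KAL.TI

/-- Many heavy rows from a large total weight. -/
theorem ncard_of_sum (w : ℕ → ℝ) (h1 : ∀ r, w r ≤ 1) (u : ℝ) (hu : 0 ≤ u)
    (a h : ℕ) (hs : 2 * u * h ≤ ∑ r ∈ Finset.Ico a (a + h), w r) :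
    u * h ≤ (Set.ncard {r | u ≤ w r ∧ a ≤ r ∧ r < a + h} : ℝ) := by
  classical
  set F : Finset ℕ := (Finset.Ico a (a + h)).filter (fun r => u ≤ w r) with hF
  have e1 : {r | u ≤ w r ∧ a ≤ r ∧ r < a + h} = (F : Set ℕ) := by
    ext r
    simp only [hF, Finset.coe_filter, Finset.mem_Ico, Set.mem_ofPred_eq]
    tauto
  rw [e1, Set.ncard_coe_finset]
  have e2 := Finset.sum_filter_add_sum_filter_not (Finset.Ico a (a + h)) (fun r => u ≤ w r) w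
  have e3 : ∑ r ∈ (Finset.Ico a (a + h)).filter (fun r => u ≤ w r), w r ≤ F.card := by
    calc _ ≤ ∑ _r ∈ (Finset.Ico a (a + h)).filter (fun r => u ≤ w r), (1 : ℝ) :=
          Finset.sum_le_sum fun r _ => h1 r
      _ = F.card := by rw [sum_const, nsmul_eq_mul, mul_one, hF]
  have e4 : ∑ r ∈ (Finset.Ico a (a + h)).filter (fun r => ¬ u ≤ w r), w r ≤ u * h := by
    calc _ ≤ ∑ _r ∈ (Finset.Ico a (a + h)).filter (fun r => ¬ u ≤ w r), u :=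
          Finset.sum_le_sum fun r hr => (not_le.1 (Finset.mem_filter.1 hr).2).le
      _ = ((Finset.Ico a (a + h)).filter (fun r => ¬ u ≤ w r)).card * u := by
          rw [sum_const, nsmul_eq_mul]
      _ ≤ h * u := by
          refine mul_le_mul_of_nonneg_right ?_ hu
          have := Finset.card_filter_le (Finset.Ico a (a + h)) (fun r => ¬ u ≤ w r)
          rw [Nat.card_Ico] at this
          have h2 : ((Finset.Ico a (a + h)).filter (fun r => ¬ u ≤ w r)).card ≤ h := by omega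
          exact_mod_cast h2
      _ = u * h := by ring
  linarith

/-- The heavy rows of a sample. -/
noncomputable def Jw {Ω θ : Type} [Fintype Ω] (p : Ω → ℝ) (N : Ω → ℤ) (t : Ω → θ)
    (X k K : ℕ) (D u : ℝ) (ω : Ω) : Set ℕ :=
  {r | u ≤ wtG p N t X (X + k + 1 - r) K D ω}

/-- **(J1)** for the heavy rows, abstract data. -/
theorem j1_rd (c D : ℝ) (K k : ℕ) (hc : 0 < c) (hD : 0 ≤ D)
    (hK : 8 * (D + Real.log 2) ≤ c * (K * Real.log 2)) (κ π₁ : ℝ) (hκ : 0 < κ)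
    (hπ : 0 < π₁) :
    ∃ (π₀ : ℝ) (X₀ : ℕ), 0 < π₀ ∧ ∀ (d : Pool.L1.RD) (Bd : Set ℕ), IsLaw d.P → X₀ ≤ d.X →
      d.H5 c κ π₀ Bd →
      Pool.L1.J1 d (Jw d.P d.N d.T d.X k K D (c / 16)) ⌊κ * d.X⌋₊ (c / 16) π₁ Bd := by
  obtain ⟨π₀, X₀, h0, hA⟩ := j1d0 c D K k hc hD hK κ π₁ hκ hπ
  refine ⟨π₀, X₀, h0, fun d Bd hlaw hX h5 => ?_⟩
  refine le_trans (Pr_mono hlaw.nonneg fun ω _ hω => ?_) (hA d Bd hlaw hX h5)
  obtain ⟨j, hB, hj, hw⟩ := hω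
  refine ⟨j, hB, hj, ?_⟩
  by_contra hcon
  rw [not_lt] at hcon
  refine absurd hw (not_lt.2 ?_)
  have e := ncard_of_sum (fun r => wtG d.P d.N d.T d.X (d.X + k + 1 - r) K D ω)
    (fun r => wtG_le_one ..) (c / 16) (by positivity)
    (j * ⌊κ * d.X⌋₊) ⌊κ * d.X⌋₊ (by
      rw [show j * ⌊κ * d.X⌋₊ + ⌊κ * d.X⌋₊ = (j + 1) * ⌊κ * d.X⌋₊ by ring]
      linarith)
  rw [show j * ⌊κ * d.X⌋₊ + ⌊κ * d.X⌋₊ = (j + 1) * ⌊κ * d.X⌋₊ by ring] at e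
  exact e

/-- **(J1)** for the heavy rows, theorem OC. -/
theorem j1_dat (c D : ℝ) (K k : ℕ) (hc : 0 < c) (hD : 0 ≤ D)
    (hK : 8 * (D + Real.log 2) ≤ c * (K * Real.log 2)) (κ π₁ : ℝ) (hκ : 0 < κ)
    (hπ : 0 < π₁) :
    ∃ (π₀ : ℝ) (X₀ : ℕ), 0 < π₀ ∧ ∀ d : Dat, IsLaw d.P → X₀ ≤ d.X → d.H5 c κ π₀ →
      J1 d (Jw d.P d.N d.T d.X k K D (c / 16)) ⌊κ * d.X⌋₊ (c / 16) π₁ := by
  obtain ⟨π₀, X₀, h0, hA⟩ := j1d c D K k hc hD hK κ π₁ hκ hπ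
  refine ⟨π₀, X₀, h0, fun d hlaw hX h5 => ?_⟩
  refine le_trans (Pr_mono hlaw.nonneg fun ω _ hω => ?_) (hA d hlaw hX h5)
  obtain ⟨j, hj, hw⟩ := hω
  refine ⟨j, hj, ?_⟩
  by_contra hcon
  rw [not_lt] at hcon
  refine absurd hw (not_lt.2 ?_)
  have e := ncard_of_sum (fun r => wtG d.P d.N d.T d.X (d.X + k + 1 - r) K D ω)
    (fun r => wtG_le_one ..) (c / 16) (by positivity)
    (j * ⌊κ * d.X⌋₊) ⌊κ * d.X⌋₊ (by
      rw [show j * ⌊κ * d.X⌋₊ + ⌊κ * d.X⌋₊ = (j + 1) * ⌊κ * d.X⌋₊ by ring]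
      linarith)
  rw [show j * ⌊κ * d.X⌋₊ + ⌊κ * d.X⌋₊ = (j + 1) * ⌊κ * d.X⌋₊ by ring] at e
  exact e

end Pool.OC
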