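import Pool.Agent.H66.OC.Dec
import Pool.Agent.H86.OC.RA

/-!
Theorem OC, row RAU (density of the nonfull rows).  If on every event of probability at least
`π₀` the rows of `N` between `κ₀` and `κ₀ + h` have entropy at most `(1 - c) h log 2`, then for
all samples outside probability `π₀` a proportion `c / 4` of the windows of `Kc` rows is not full
at the cell of the sample, for the law of all samples.
-/

set_option autoImplicit false

namespace Pool.OC

open Finset Real
open Pool.Agent.H49.Ent Pool.Agent.H32.Dense Pool.STK Pool.KAF Pool.KAL Pool.KX Pool.KAL.TI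

section

variable {Ω β θ S T : Type} [Fintype Ω]

/-- At one value of the cell: the entropy of the rows is not much larger than the entropy given
the context, for most values of the context. -/
theorem cmp_rev_at {q : Ω → ℝ} (hq : IsLaw q) (R : Ω → S) (b : Ω → β) {e δ : ℝ} (hδ : 0 < δ)
    (he : H q R + H q b - H q (fun ω => (R ω, b ω)) ≤ e) (F : Finset S)
    (hF : ∀ ω, 0 < q ω → R ω ∈ F) :
    Pr q {ω | H (cond q b (b ω)) R + Real.log 2 + δ / 2 * Real.log F.card < H q R} ≤
      2 * Real.sqrt e / δ := by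
  classical
  have hpin := Pool.KVA.pinsker q R b hq.nonneg hq.sum_one
  have hpin2 := hpin.trans (mul_le_mul_of_nonneg_left (Real.sqrt_le_sqrt he) (by norm_num))
  set T : β → ℝ := fun v => ∑ s ∈ F, |law q R s - law (cond q b v) R s| with hT
  have hT0 : ∀ v, 0 ≤ T v := fun v => Finset.sum_nonneg fun _ _ => abs_nonneg _
  have h1 : ∑ v ∈ univ.image b, law q b v * T v ≤ 2 * Real.sqrt e := by
    refine le_trans (le_of_eq ?_) hpin2
    rw [Finset.sum_product_right]
    refine Finset.sum_congr rfl fun v hv => ?_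
    rw [hT, Finset.mul_sum]
    have e1 : ∀ s, law q b v * |law q R s - law (cond q b v) R s| =
        |law q (fun ω => (R ω, b ω)) (s, v) - law q R s * law q b v| := by
      intro s
      rcases (law_nonneg hq.nonneg b v).eq_or_lt with h0 | h0
      · have h2 := law_pair_le' hq.nonneg R b s v
        have h3 := law_nonneg hq.nonneg (fun ω => (R ω, b ω)) (s, v)
        have h4 : law q (fun ω => (R ω, b ω)) (s, v) = 0 := le_antisymm (h0 ▸ h2) h3
        rw [h4, ← h0]
        simp
      · rw [law_cond, ← abs_of_pos h0, ← abs_mul, abs_of_pos h0, mul_sub, mul_div_cancel₀ _ h0.ne',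
          abs_sub_comm, mul_comm (law q b v)]
    rw [Finset.sum_congr rfl fun s _ => e1 s]
    have h5 : ∀ s, s ∉ F → |law q (fun ω => (R ω, b ω)) (s, v) - law q R s * law q b v| = 0 := by
      intro s hs
      have h6 := law_zero_off hq.nonneg R F hF hs
      have h7 := law_pair_le hq.nonneg R b s v
      have h8 := law_nonneg hq.nonneg (fun ω => (R ω, b ω)) (s, v)
      have h9 : law q (fun ω => (R ω, b ω)) (s, v) = 0 := le_antisymm (h6 ▸ h7) h8
      rw [h9, h6]
      simp
    have h6 : ∀ s, s ∉ univ.image R →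
        |law q (fun ω => (R ω, b ω)) (s, v) - law q R s * law q b v| = 0 := by
      intro s hs
      have h6 := law_eq_zero_of_notMem q R hs
      have h7 := law_pair_le hq.nonneg R b s v
      have h8 := law_nonneg hq.nonneg (fun ω => (R ω, b ω)) (s, v)
      have h9 : law q (fun ω => (R ω, b ω)) (s, v) = 0 := le_antisymm (h6 ▸ h7) h8
      rw [h9, h6]
      simp
    rw [Finset.sum_subset (Finset.subset_union_right : F ⊆ univ.image R ∪ F) fun s _ hs => h5 s hs]
    rw [Finset.sum_subset (Finset.subset_union_left : univ.image R ⊆ univ.image R ∪ F)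
      fun s _ hs => h6 s hs]
  exact by
   have h2 : ∑ ω, q ω * T (b ω) ≤ δ * (2 * Real.sqrt e / δ) := by
     rw [sum_mul_eq_sum_image q b T, mul_div_cancel₀ _ hδ.ne']
     exact h1
   have h3 := AVG.markov hq.nonneg (fun ω => T (b ω)) (fun ω _ => hT0 _) δ
     (2 * Real.sqrt e / δ) hδ h2
   refine le_trans (Pr_mono hq.nonneg fun ω hω h => ?_) h3
   by_contra hcon
   have h4 : T (b ω) ≤ δ := not_lt.mp hcon
   have hql := isLaw_cond hq b hω
   have hF' : ∀ v, 0 < cond q b (b ω) v → R v ∈ F := fun v hv =>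
     hF v ((cond_pos_iff hq.nonneg b (b ω) v).1 hv).1
   have hFne : F.Nonempty := ⟨R ω, hF ω hω⟩
   have h5 := Pool.KVA.ent_cont F hFne (fun s => law (cond q b (b ω)) R s) (fun s => law q R s)
     (fun s _ => law_nonneg hql.nonneg R s) (fun s _ => law_nonneg hq.nonneg R s)
     (sum_law_supp hql R F hF') (sum_law_supp hq R F hF)
   rw [← H_supp hq.nonneg R F hF, ← H_supp hql.nonneg R F hF'] at h5
   have h6 : 0 ≤ Real.log F.card := Real.log_nonneg (by
     exact_mod_cast hFne.card_pos)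
   have e2 : ∀ s, |law (cond q b (b ω)) R s - law q R s| = |law q R s - law (cond q b (b ω)) R s| :=
     fun s => abs_sub_comm _ _
   simp only [e2] at h5
   have h7 : (∑ s ∈ F, |law q R s - law (cond q b (b ω)) R s|) / 2 * Real.log F.card ≤
       δ / 2 * Real.log F.card := by
     gcongr
   exact absurd h (not_lt.mpr (h5.trans (by linarith only [h7])))

/-- The entropies given the cell and given the context. -/
theorem cmp_rev {p : Ω → ℝ} (hp : IsLaw p) (R : Ω → S) (b : Ω → β) (m : Ω → T) {e δ a : ℝ}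
    (hδ : 0 < δ) (he0 : 0 < e) (hMI : Pool.KVA.MI p R b m ≤ e * a) (F : T → Finset S) (n : ℕ)
    (hF : ∀ ω, 0 < p ω → R ω ∈ F (m ω)) (hn : ∀ t, (F t).card ≤ n) :
    Pr p {ω | H (cond p (fun u => (b u, m u)) (b ω, m ω)) R + Real.log 2 +
      δ / 2 * Real.log n < H (cond p m (m ω)) R} ≤ a + 2 * Real.sqrt e / δ := by
  classical
  set S₀ : Set Ω := {ω | H (cond p (fun u => (b u, m u)) (b ω, m ω)) R + Real.log 2 +
      δ / 2 * Real.log n < H (cond p m (m ω)) R} with hS₀
  set E : Set Ω := {ω | e < H (cond p m (m ω)) R + H (cond p m (m ω)) b -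
    H (cond p m (m ω)) (fun ω' => (R ω', b ω'))} with hE
  have hPE : Pr p E ≤ a := avg3_thm Ω S β T p R b m e a hp he0 hMI
  have h0 : 0 ≤ 2 * Real.sqrt e / δ := by positivity
  rw [← AVG.Pr_cond_sum hp.nonneg m S₀]
  have h1 : ∀ ω, p ω * Pr (cond p m (m ω)) S₀ ≤
      (if ω ∈ E then p ω else 0) + p ω * (2 * Real.sqrt e / δ) := by
    intro ω
    rcases (hp.nonneg ω).eq_or_lt with hω | hω
    · rw [← hω, zero_mul, zero_mul, ite_self, add_zero]
    have hq := isLaw_cond hp m hω
    by_cases hωE : ω ∈ E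
    · rw [if_pos hωE]
      have h2 := Pr_le_one hq S₀
      have h3 : 0 ≤ p ω * (2 * Real.sqrt e / δ) := by positivity
      nlinarith only [h3, hω, h2]
    · rw [if_neg hωE, zero_add]
      refine mul_le_mul_of_nonneg_left ?_ hω.le
      have h2 := cmp_rev_at hq R b hδ (not_lt.mp hωE) (F (m ω)) (fun v hv => by
        obtain ⟨k1, k2⟩ := (cond_pos_iff hp.nonneg m (m ω) v).1 hv
        rw [← k2]
        exact hF v k1)
      refine le_trans (Pr_mono hq.nonneg fun v hv hvS => ?_) h2
      have h3 := cond_swap hp.nonneg m b hv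
      obtain ⟨k1, k2⟩ := (cond_pos_iff hp.nonneg m (m ω) v).1 hv
      have hvS' : H (cond p (fun u => (b u, m u)) (b v, m v)) R + Real.log 2 +
        δ / 2 * Real.log n < H (cond p m (m v)) R := hvS
      show H (cond (cond p m (m ω)) b (b v)) R + Real.log 2 +
        δ / 2 * Real.log (F (m ω)).card < H (cond p m (m ω)) R
      rw [h3, ← k2]
      have hFv : (F (m v)).Nonempty := ⟨R v, hF v k1⟩
      have h4 : Real.log (F (m v)).card ≤ Real.log n := by
        refine Real.log_le_log (by exact_mod_cast hFv.card_pos) (by exact_mod_cast hn _)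
      have h5 : δ / 2 * Real.log (F (m v)).card ≤ δ / 2 * Real.log n := by gcongr
      linarith only [hvS', h5]
  refine (Finset.sum_le_sum fun ω _ => h1 ω).trans ?_
  rw [Finset.sum_add_distrib, ← Finset.sum_mul, hp.sum_one, one_mul, ← Pool.KAF.Pr_eq]
  linarith only [hPE]

/-! ### Telescoping sums over the windows -/

/-- Differences over windows of length `K`. -/
theorem tel_mono {k : ℕ → ℝ} (hk : Monotone k) (a n K : ℕ) :
    ∑ j ∈ range n, (k (a + j + K) - k (a + j)) ≤ K * (k (a + n + K) - k a) := by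
  have h1 : ∀ j ∈ range n, k (a + j + K) - k (a + j) =
      ∑ i ∈ range K, (k (a + j + i + 1) - k (a + j + i)) := by
    intro j _
    exact (Finset.sum_range_sub (fun i => k (a + j + i)) K).symm
  rw [Finset.sum_congr rfl h1, Finset.sum_comm]
  have h2 : ∀ i ∈ range K, ∑ j ∈ range n, (k (a + j + i + 1) - k (a + j + i)) ≤
      k (a + n + K) - k a := by
    intro i hi
    have h3 := Finset.sum_range_sub (fun j => k (a + j + i)) n
    have h4 : ∑ j ∈ range n, (k (a + j + i + 1) - k (a + j + i)) =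
        ∑ j ∈ range n, (k (a + (j + 1) + i) - k (a + j + i)) := by
      refine Finset.sum_congr rfl fun j _ => ?_
      rw [show a + j + i + 1 = a + (j + 1) + i by ring]
    rw [h4, h3]
    have hi' := mem_range.1 hi
    have h5 : k (a + n + i) ≤ k (a + n + K) := hk (by omega)
    have h6 : k a ≤ k (a + 0 + i) := hk (by omega)
    linarith only [h5, h6]
  refine (Finset.sum_le_sum h2).trans (le_of_eq ?_)
  rw [sum_const, card_range, nsmul_eq_mul]

/-- The row window at the level `κ`. -/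
def rwn (N : Ω → ℤ) (κ : ℕ) (ω : Ω) : ℤ := N ω / ((2 ^ κ : ℕ) : ℤ)

omit [Fintype Ω] in
theorem rwn_add (N : Ω → ℤ) (κ K : ℕ) (ω : Ω) :
    rwn N (κ + K) ω = rwn N κ ω / ((2 ^ K : ℕ) : ℤ) := by
  unfold rwn
  rw [Int.ediv_ediv_of_nonneg (by positivity)]
  congr 1
  push_cast
  rw [pow_add]

omit [Fintype Ω] in
theorem det_rwn (p : Ω → ℝ) (N : Ω → ℤ) {κ κ' : ℕ} (h : κ ≤ κ') : Det p (rwn N κ) (rwn N κ') := by
  intro ω ω' _ _ h1
  obtain ⟨K, rfl⟩ := Nat.exists_eq_add_of_le h
  rw [rwn_add, rwn_add, h1]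

/-- Entropy of the windows. -/
theorem sum_CH_win {q : Ω → ℝ} (hq : ∀ ω, 0 ≤ q ω) (N : Ω → ℤ) (T : Ω → θ) (a n K : ℕ) :
    ∑ j ∈ range n, CH q (rwn N (a + j)) (fun ω => (rwn N (a + j + K) ω, T ω)) ≤
      K * CH q (rwn N a) (fun ω => (rwn N (a + n + K) ω, T ω)) := by
  have key : ∀ κ κ' : ℕ, κ ≤ κ' → CH q (rwn N κ) (fun ω => (rwn N κ' ω, T ω)) =
      CH q (rwn N κ) T - CH q (rwn N κ') T := by
    intro κ κ' h
    have h1 := CH_chain hq (rwn N κ) (rwn N κ') T
    have h2 : CH q (fun ω => (rwn N κ ω, rwn N κ' ω)) T = CH q (rwn N κ) T := by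
      refine CH_congr hq ?_ ?_ (fun _ _ _ _ h => h) (fun _ _ _ _ h => h)
      · intro ω ω' _ _ hw
        simp only [Prod.mk.injEq] at hw
        exact hw.1.1
      · intro ω ω' h1 h2 hw
        simp only [Prod.mk.injEq] at hw ⊢
        exact ⟨hw.1, det_rwn q N h ω ω' h1 h2 hw.1⟩
    linarith only [h1, h2]
  have hmono : Monotone (fun κ => - CH q (rwn N κ) T) := by
    intro κ κ' h
    have h1 := key κ κ' h
    have h2 := CH_nonneg hq (rwn N κ) (fun ω => (rwn N κ' ω, T ω))
    simp only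
    linarith only [h1, h2]
  have h3 := tel_mono hmono a n K
  rw [Finset.sum_congr rfl fun j _ => key (a + j) (a + j + K) (by omega), key a (a + n + K) (by omega)]
  refine le_trans (le_of_eq ?_) (h3.trans (le_of_eq ?_))
  · refine Finset.sum_congr rfl fun j _ => ?_
    ring
  · ring

/-- Information of a label on the windows. -/
theorem sum_MI_win {p : Ω → ℝ} (hp : ∀ ω, 0 ≤ p ω) (N : Ω → ℤ) (T : Ω → θ) (b : Ω → β)
    (a n K : ℕ) :
    ∑ j ∈ range n, Pool.KVA.MI p (rwn N (a + j)) b (fun ω => (rwn N (a + j + K) ω, T ω)) ≤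
      K * CH p b T := by
  have key : ∀ κ κ' : ℕ, κ ≤ κ' → Pool.KVA.MI p (rwn N κ) b (fun ω => (rwn N κ' ω, T ω)) =
      CH p b (fun ω => (rwn N κ' ω, T ω)) - CH p b (fun ω => (rwn N κ ω, T ω)) := by
    intro κ κ' h
    unfold Pool.KVA.MI
    have h1 := CH_chain hp b (rwn N κ) (fun ω => (rwn N κ' ω, T ω))
    have h2 : CH p (fun ω => (rwn N κ ω, b ω)) (fun ω => (rwn N κ' ω, T ω)) =
        CH p (fun ω => (b ω, rwn N κ ω)) (fun ω => (rwn N κ' ω, T ω)) := by
      refine CH_congr hp ?_ ?_ (fun _ _ _ _ h => h) (fun _ _ _ _ h => h) <;>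
      · intro ω ω' _ _ hw
        simp only [Prod.mk.injEq] at hw ⊢
        tauto
    have h3 : CH p b (fun ω => (rwn N κ ω, (rwn N κ' ω, T ω))) = CH p b (fun ω => (rwn N κ ω, T ω)) := by
      refine CH_congr hp ?_ ?_ ?_ ?_
      · intro ω ω' _ _ hw
        simp only [Prod.mk.injEq] at hw
        exact hw.1
      · intro ω ω' _ _ hw
        simp only [Prod.mk.injEq] at hw
        exact hw.1
      · intro ω ω' _ _ hw
        simp only [Prod.mk.injEq] at hw ⊢
        exact ⟨hw.1, hw.2.2⟩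
      · intro ω ω' h1 h2 hw
        simp only [Prod.mk.injEq] at hw ⊢
        exact ⟨hw.1, det_rwn p N h ω ω' h1 h2 hw.1, hw.2⟩
    linarith only [h1, h2, h3]
  have hmono : Monotone (fun κ => CH p b (fun ω => (rwn N κ ω, T ω))) := by
    intro κ κ' h
    refine CH_mono_cond hp ?_
    intro ω ω' h1 h2 hw
    simp only [Prod.mk.injEq] at hw ⊢
    exact ⟨det_rwn p N h ω ω' h1 h2 hw.1, hw.2⟩
  have h3 := tel_mono hmono a n K
  rw [Finset.sum_congr rfl fun j _ => key (a + j) (a + j + K) (by omega)]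
  refine h3.trans (mul_le_mul_of_nonneg_left ?_ (Nat.cast_nonneg K))
  have h4 := CH_nonneg hp b (fun ω => (rwn N a ω, T ω))
  have h5 : CH p b (fun ω => (rwn N (a + n + K) ω, T ω)) ≤ CH p b T := by
    refine CH_mono_cond hp ?_
    intro ω ω' _ _ hw
    simp only [Prod.mk.injEq] at hw
    exact hw.2
  linarith only [h4, h5]

/-! ### The main inequality -/

theorem rowH_le {p : Ω → ℝ} (hp : IsLaw p) (N : Ω → ℤ) (κ K : ℕ) (T : Ω → θ) {ω : Ω}
    (hω : 0 < p ω) : rowH p N κ K T ω ≤ K * Real.log 2 := by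
  have hq := isLaw_cond hp (fun v => (N v / ((2 ^ (κ + K) : ℕ) : ℤ), T v)) hω
  have h1 : Real.log (cellF K (N ω / ((2 ^ (κ + K) : ℕ) : ℤ))).card = K * Real.log 2 := by
    rw [cellF_card]
    push_cast
    rw [Real.log_pow]
  rw [← h1]
  unfold rowH
  refine H_le_log_card hq.nonneg hq.sum_one _ _ fun v hv => ?_
  have h2 := ((cond_pos_iff hp.nonneg _ _ v).1 hv).2
  have h3 : N v / ((2 ^ (κ + K) : ℕ) : ℤ) = N ω / ((2 ^ (κ + K) : ℕ) : ℤ) := (Prod.ext_iff.mp h2).1
  rw [← h3]
  exact mem_cellF κ K (N v)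

theorem sum_indicator {p : Ω → ℝ} (E : Set Ω) [DecidablePred (· ∈ E)] :
    ∑ ω, (if ω ∈ E then p ω else 0) = Pr p E := (Pool.KAF.Pr_eq p E).symm

/-- The entropy on the event, as a sum over the samples. -/
theorem sum_event {p : Ω → ℝ} (hp : IsLaw p) (E : Set Ω) [DecidablePred (· ∈ E)]
    (R : Ω → S) (m : Ω → T) (hE : 0 < Pr p E) :
    ∑ ω, (if ω ∈ E then p ω else 0) * H (cond p (fun u => ((u ∈ E), m u)) ((ω ∈ E), m ω)) R =
      Pr p E * CH (cond p (· ∈ E) True) R m := by
  classical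
  have hPE : law p (· ∈ E) True = Pr p E := rfl
  have hq : IsLaw (cond p (· ∈ E) True) :=
    ⟨fun v => cond_nonneg hp.nonneg _ _ v, sum_cond p _ (by rw [hPE]; exact hE.ne')⟩
  have h1 : CH (cond p (· ∈ E) True) R m =
      ∑ ω, cond p (· ∈ E) True ω * H (cond (cond p (· ∈ E) True) m (m ω)) R := by
    rw [← CDF.Ex_H hq.nonneg]
    rfl
  rw [h1, Finset.mul_sum]
  refine Finset.sum_congr rfl fun ω _ => ?_
  by_cases hω : ω ∈ E
  · rw [if_pos hω]
    have h2 : Pr p E * cond p (· ∈ E) True ω = p ω := by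
      unfold Pool.Agent.H49.Ent.cond
      rw [if_pos (by simp [hω]), hPE, mul_div_cancel₀ _ hE.ne']
    rcases (hp.nonneg ω).eq_or_lt with h0 | h0
    · rw [← mul_assoc, h2, ← h0]
      simp
    · rw [← mul_assoc, h2]
      congr 1
      have h3 : 0 < cond p (· ∈ E) True ω := (cond_pos_iff hp.nonneg _ _ ω).2 ⟨h0, by simp [hω]⟩
      rw [cond_swap hp.nonneg (· ∈ E) m h3, cond_comm]
  · rw [if_neg hω, zero_mul]
    have h2 : cond p (· ∈ E) True ω = 0 := by
      unfold Pool.Agent.H49.Ent.cond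
      rw [if_neg (by simp [hω])]
    rw [h2]
    ring

theorem CH_event_le {p : Ω → ℝ} (hp : IsLaw p) (E : Set Ω) (T : Ω → θ) :
    CH p (fun u => (u ∈ E)) T ≤ Real.log 2 := by
  classical
  rw [CH_eq_sum hp.nonneg]
  have h1 : ∀ y ∈ univ.image T, law p T y * H (cond p T y) (fun u => (u ∈ E)) ≤
      law p T y * Real.log 2 := by
    intro y _
    rcases (law_nonneg hp.nonneg T y).eq_or_lt with h0 | h0
    · rw [← h0, zero_mul, zero_mul]
    · refine mul_le_mul_of_nonneg_left ?_ h0.le
      have hq : IsLaw (cond p T y) := ⟨fun v => cond_nonneg hp.nonneg _ _ v, sum_cond p _ h0.ne'⟩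
      refine (H_le_log_card hq.nonneg hq.sum_one _ {True, False} fun ω _ => ?_).trans ?_
      · by_cases h : ω ∈ E <;> simp [h]
      · refine Real.log_le_log ?_ ?_
        · exact_mod_cast Finset.card_pos.2 ⟨True, by simp⟩
        · exact_mod_cast Finset.card_le_two
  refine (Finset.sum_le_sum h1).trans (le_of_eq ?_)
  rw [← Finset.sum_mul, sum_law, hp.sum_one, one_mul]

/-- The main inequality for one offset. -/
theorem main_ineq {p : Ω → ℝ} (hp : IsLaw p) (N : Ω → ℤ) (T : Ω → θ) (E : Set Ω)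
    (hE : 0 < Pr p E) (a n K : ℕ) (thr A δ e : ℝ) (hδ : 0 < δ) (he : 0 < e) (hthr : 0 ≤ thr)
    (hA : CH (cond p (· ∈ E) True) (rwn N a) (fun ω => (rwn N (a + n + K) ω, T ω)) ≤ A) :
    Pr p E * (n * (K * Real.log 2)) ≤
      Pr p E * (K * A + n * (thr + Real.log 2 + δ / 2 * (K * Real.log 2))) +
      K * Real.log 2 * (∑ j ∈ range n,
        Pr p (E ∩ {ω | rowH p N (a + j) K T ω ≤ K * Real.log 2 - thr}) +
        (K * Real.log 2 / e + n * (2 * Real.sqrt e / δ))) := by
  classical
  have hl2 : 0 < Real.log 2 := Real.log_pos (by norm_num)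
  have hK0 : (0 : ℝ) ≤ K * Real.log 2 := by positivity
  set m : ℕ → Ω → ℤ × θ := fun κ ω => (rwn N (κ + K) ω, T ω) with hm
  set b : Ω → Prop := fun u => (u ∈ E) with hb
  set G : ℕ → Ω → ℝ := fun κ ω => H (cond p (fun u => (b u, m κ u)) (b ω, m κ ω)) (rwn N κ) with hG
  set M : ℕ → ℝ := fun κ => Pool.KVA.MI p (rwn N κ) b (m κ) with hM
  set Bd : ℕ → Set Ω := fun κ => {ω | G κ ω + Real.log 2 + δ / 2 * Real.log ((2 ^ K : ℕ) : ℝ) <
    H (cond p (m κ) (m κ ω)) (rwn N κ)} with hBd
  set B : ℕ → Set Ω := fun κ => {ω | rowH p N κ K T ω ≤ K * Real.log 2 - thr} with hB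
  have hlog : Real.log ((2 ^ K : ℕ) : ℝ) = K * Real.log 2 := by
    push_cast
    rw [Real.log_pow]
  have hrow : ∀ κ ω, rowH p N κ K T ω = H (cond p (m κ) (m κ ω)) (rwn N κ) := fun _ _ => rfl
  have hG0 : ∀ κ ω, 0 < p ω → 0 ≤ G κ ω := by
    intro κ ω hω
    have hq := isLaw_cond hp (fun u => (b u, m κ u)) hω
    exact H_nonneg hq.nonneg hq.sum_one _
  -- the bad sets
  have hbad : ∀ κ, Pr p (Bd κ) ≤ M κ / e + 2 * Real.sqrt e / δ := by
    intro κ
    exact cmp_rev hp (rwn N κ) b (m κ) (e := e) (δ := δ) (a := M κ / e) hδ he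
      (by rw [mul_div_cancel₀ _ he.ne']) (fun t => cellF K t.1) (2 ^ K)
      (fun ω _ => mem_cellF κ K (N ω)) (fun t => (cellF_card K t.1).le)
  -- one level
  have hone : ∀ κ, Pr p E * (K * Real.log 2) ≤
      Pr p E * CH (cond p (· ∈ E) True) (rwn N κ) (m κ) +
      Pr p E * (thr + Real.log 2 + δ / 2 * (K * Real.log 2)) +
      K * Real.log 2 * (Pr p (E ∩ B κ) + (M κ / e + 2 * Real.sqrt e / δ)) := by
    intro κ
    have h1 : ∀ ω, (if ω ∈ E then p ω else 0) * (K * Real.log 2) ≤
        (if ω ∈ E then p ω else 0) * G κ ω +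
        (if ω ∈ E then p ω else 0) * (thr + Real.log 2 + δ / 2 * (K * Real.log 2)) +
        K * Real.log 2 * ((if ω ∈ E ∩ B κ then p ω else 0) + (if ω ∈ Bd κ then p ω else 0)) := by
      intro ω
      have hω0 := hp.nonneg ω
      have h0 : 0 ≤ (if ω ∈ E ∩ B κ then p ω else 0) := by split_ifs <;> simp [hω0]
      have h0' : 0 ≤ (if ω ∈ Bd κ then p ω else 0) := by split_ifs <;> simp [hω0]
      by_cases hE' : ω ∈ E
      · rw [if_pos hE']
        rcases hω0.eq_or_lt with h2 | h2
        · rw [← h2]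
          simp only [ite_self, zero_mul, add_zero, mul_zero, le_refl]
        · have h3 := rowH_le hp N κ K T h2
          have hGω := hG0 κ ω h2
          by_cases hBω : ω ∈ B κ
          · rw [if_pos (show ω ∈ E ∩ B κ from ⟨hE', hBω⟩)]
            have h4 : 0 ≤ p ω * G κ ω := mul_nonneg hω0 hGω
            have h5 : 0 ≤ p ω * (thr + Real.log 2 + δ / 2 * (K * Real.log 2)) := by positivity
            have h6 : 0 ≤ K * Real.log 2 * (if ω ∈ Bd κ then p ω else 0) := mul_nonneg hK0 h0'
            nlinarith only [h4, h5, h6]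
          · by_cases hBdω : ω ∈ Bd κ
            · rw [if_pos hBdω]
              have h4 : 0 ≤ p ω * G κ ω := mul_nonneg hω0 hGω
              have h5 : 0 ≤ p ω * (thr + Real.log 2 + δ / 2 * (K * Real.log 2)) := by positivity
              have h6 : 0 ≤ K * Real.log 2 * (if ω ∈ E ∩ B κ then p ω else 0) := mul_nonneg hK0 h0
              nlinarith only [h4, h5, h6]
            · have h4 : K * Real.log 2 - thr < rowH p N κ K T ω := not_le.1 hBω
              have h5 : rowH p N κ K T ω ≤ G κ ω + Real.log 2 + δ / 2 * (K * Real.log 2) := by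
                rw [hrow, ← hlog]
                exact not_lt.1 hBdω
              have h6 : K * Real.log 2 ≤ G κ ω + (thr + Real.log 2 + δ / 2 * (K * Real.log 2)) := by
                linarith only [h4, h5]
              have h7 := mul_le_mul_of_nonneg_left h6 hω0
              have h8 : 0 ≤ K * Real.log 2 * ((if ω ∈ E ∩ B κ then p ω else 0) +
                (if ω ∈ Bd κ then p ω else 0)) := mul_nonneg hK0 (add_nonneg h0 h0')
              linarith only [h7, h8]
      · rw [if_neg hE', zero_mul, zero_mul, zero_mul]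
        have h8 : 0 ≤ K * Real.log 2 * ((if ω ∈ E ∩ B κ then p ω else 0) +
                (if ω ∈ Bd κ then p ω else 0)) := mul_nonneg hK0 (add_nonneg h0 h0')
        linarith only [h8]
    have h2 := Finset.sum_le_sum fun ω (_ : ω ∈ univ) => h1 ω
    rw [Finset.sum_add_distrib, Finset.sum_add_distrib, ← Finset.sum_mul, ← Finset.sum_mul,
      ← Finset.mul_sum, Finset.sum_add_distrib, sum_indicator, sum_indicator, sum_indicator] at h2
    have h3 : ∑ ω, (if ω ∈ E then p ω else 0) * G κ ω =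
        Pr p E * CH (cond p (· ∈ E) True) (rwn N κ) (m κ) := sum_event hp E (rwn N κ) (m κ) hE
    rw [h3] at h2
    have h4 := mul_le_mul_of_nonneg_left (hbad κ) hK0
    linarith only [h2, h4]
  -- the sum over the levels
  exact by
   have hsum := Finset.sum_le_sum fun j (_ : j ∈ range n) => hone (a + j)
   have s1 : ∑ _j ∈ range n, Pr p E * (K * Real.log 2) = Pr p E * (n * (K * Real.log 2)) := by
     rw [sum_const, card_range, nsmul_eq_mul]
     ring
   have s2 : ∑ j ∈ range n, (Pr p E * CH (cond p (· ∈ E) True) (rwn N (a + j)) (m (a + j)) +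
       Pr p E * (thr + Real.log 2 + δ / 2 * (K * Real.log 2)) +
       K * Real.log 2 * (Pr p (E ∩ B (a + j)) + (M (a + j) / e + 2 * Real.sqrt e / δ))) =
       Pr p E * ∑ j ∈ range n, CH (cond p (· ∈ E) True) (rwn N (a + j)) (m (a + j)) +
       Pr p E * (n * (thr + Real.log 2 + δ / 2 * (K * Real.log 2))) +
       K * Real.log 2 * (∑ j ∈ range n, Pr p (E ∩ B (a + j)) +
         ((∑ j ∈ range n, M (a + j)) / e + n * (2 * Real.sqrt e / δ))) := by
     simp only [Finset.sum_add_distrib, ← Finset.mul_sum, sum_const, card_range, nsmul_eq_mul,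
       ← Finset.sum_div]
     ring
   rw [s1, s2] at hsum
   have hqn : ∀ ω, 0 ≤ cond p (· ∈ E) True ω := fun v => cond_nonneg hp.nonneg _ _ v
   have h1 : ∑ j ∈ range n, CH (cond p (· ∈ E) True) (rwn N (a + j)) (m (a + j)) ≤ K * A :=
     (sum_CH_win hqn N T a n K).trans (mul_le_mul_of_nonneg_left hA (Nat.cast_nonneg K))
   have h2 : ∑ j ∈ range n, M (a + j) ≤ K * Real.log 2 := by
     have h3 := sum_MI_win hp.nonneg N T b a n K
     have h4 := CH_event_le hp E T
     exact h3.trans (mul_le_mul_of_nonneg_left h4 (Nat.cast_nonneg K))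
   have h3 := mul_le_mul_of_nonneg_left h1 hE.le
   have h4 : (∑ j ∈ range n, M (a + j)) / e ≤ K * Real.log 2 / e :=
     div_le_div_of_nonneg_right h2 he.le
   have h5 := mul_le_mul_of_nonneg_left h4 hK0
   simp only [hB] at hsum
   linarith only [h3, h5, hsum]

/-! ### Offsets -/

omit [Fintype Ω] in
/-- A translation changes a cell by one of two amounts. -/
theorem ediv_add_cases (x u d : ℤ) (hd0 : 0 < d) :
    (x + u) / d = x / d + u / d ∨ (x + u) / d = x / d + u / d + 1 := by
  have h1 := Int.emod_add_mul_ediv x d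
  have h2 := Int.emod_add_mul_ediv u d
  have h3 := Int.emod_add_mul_ediv (x + u) d
  have a1 := Int.emod_nonneg x hd0.ne'
  have a2 := Int.emod_lt_of_pos x hd0
  have b1 := Int.emod_nonneg u hd0.ne'
  have b2 := Int.emod_lt_of_pos u hd0
  have c1 := Int.emod_nonneg (x + u) hd0.ne'
  have c2 := Int.emod_lt_of_pos (x + u) hd0
  have h4 : d * ((x + u) / d - x / d - u / d) = x % d + u % d - (x + u) % d := by
    linear_combination h3 - h1 - h2
  have h5 : -1 < (x + u) / d - x / d - u / d := by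
    by_contra hc
    have : d * ((x + u) / d - x / d - u / d) ≤ d * (-1) :=
      mul_le_mul_of_nonneg_left (by omega) hd0.le
    linarith only [h1, h2, h3, a1, b1, c2, this]
  have h6 : (x + u) / d - x / d - u / d < 2 := by
    by_contra hc
    have : d * 2 ≤ d * ((x + u) / d - x / d - u / d) :=
      mul_le_mul_of_nonneg_left (by omega) hd0.le
    linarith only [h1, h2, h3, a2, b2, c1, this]
  generalize (x + u) / d = A at *
  generalize x / d = B at *
  generalize u / d = C at *
  omega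

omit [Fintype Ω] in
theorem rwn_shift (N : Ω → ℤ) (u : ℤ) (κ : ℕ) (ω : Ω) :
    rwn (fun v => N v + u) κ ω = rwn N κ ω + u / ((2 ^ κ : ℕ) : ℤ) ∨
    rwn (fun v => N v + u) κ ω = rwn N κ ω + u / ((2 ^ κ : ℕ) : ℤ) + 1 :=
  ediv_add_cases (N ω) u ((2 ^ κ : ℕ) : ℤ) (by positivity)

/-- The entropy of a variable with values in a finite set depending on the context. -/
theorem nf_ch_card {Ω S T : Type} [Fintype Ω] {p : Ω → ℝ} (hp : IsLaw p) (X : Ω → S)
    (Y : Ω → T) (n : ℕ) (h : ∀ z, ∃ F : Finset S, F.card ≤ n ∧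
      ∀ ω, 0 < p ω → Y ω = z → X ω ∈ F) : CH p X Y ≤ Real.log n := by
  classical
  rw [CH_eq_sum hp.nonneg]
  have h1 : ∀ y ∈ univ.image Y, law p Y y * H (cond p Y y) X ≤ law p Y y * Real.log n := by
    intro y _
    rcases (law_nonneg hp.nonneg Y y).eq_or_lt with h0 | h0
    · rw [← h0, zero_mul, zero_mul]
    · refine mul_le_mul_of_nonneg_left ?_ h0.le
      obtain ⟨F, hF, hX⟩ := h y
      have h2 : H (cond p Y y) X ≤ Real.log F.card := by
        refine H_le_log_card (cond_nonneg hp.nonneg Y y) (sum_cond p Y h0.ne') X (F := F) ?_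
        intro ω hω
        obtain ⟨a, b⟩ := (cond_pos_iff hp.nonneg Y y ω).mp hω
        exact hX ω a b
      refine h2.trans ?_
      have h3 : 0 < F.card := by
        obtain ⟨ω, hω⟩ : ∃ ω, 0 < p ω ∧ Y ω = y := by
          by_contra hcon
          push Not at hcon
          have : law p Y y = 0 := by
            unfold law
            refine Finset.sum_eq_zero fun ω _ => ?_
            split_ifs with h5
            · rcases (hp.nonneg ω).eq_or_lt with h6 | h6
              · exact h6.symm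
              · exact absurd h5 (hcon ω h6)
            · rfl
          exact h0.ne' this
        exact Finset.card_pos.2 ⟨X ω, hX ω hω.1 hω.2⟩
      exact Real.log_le_log (by exact_mod_cast h3) (by exact_mod_cast hF)
  refine (Finset.sum_le_sum h1).trans (le_of_eq ?_)
  rw [← Finset.sum_mul, sum_law, hp.sum_one, one_mul]

theorem CH_two {q : Ω → ℝ} (hq : IsLaw q) (X : Ω → ℤ) (Z : Ω → θ)
    (h : ∀ z, ∃ x : ℤ, ∀ ω, 0 < q ω → Z ω = z → X ω = x ∨ X ω = x + 1) :
    CH q X Z ≤ Real.log 2 := by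
  have h1 := nf_ch_card hq X Z 2 (fun z => by
    obtain ⟨x, hx⟩ := h z
    refine ⟨{x, x + 1}, Finset.card_le_two, fun ω h1 h2 => ?_⟩
    simpa using hx ω h1 h2)
  exact_mod_cast h1

/-- The entropy of the block after a translation. -/
theorem CH_shift {q : Ω → ℝ} (hq : IsLaw q) (N : Ω → ℤ) (T : Ω → θ) (u : ℤ) (a c : ℕ) :
    CH q (rwn (fun v => N v + u) a) (fun ω => (rwn (fun v => N v + u) c ω, T ω)) ≤
      CH q (rwn N a) (fun ω => (rwn N c ω, T ω)) + 2 * Real.log 2 := by
  have hq0 := hq.nonneg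
  set N' : Ω → ℤ := fun v => N v + u with hN'
  have h1 := CH_chain hq0 (rwn N' a) (rwn N c) (fun ω => (rwn N' c ω, T ω))
  have h2 : CH q (rwn N' a) (fun ω => (rwn N' c ω, T ω)) ≤
      CH q (fun ω => (rwn N' a ω, rwn N c ω)) (fun ω => (rwn N' c ω, T ω)) := by
    have e1 := CH_chain hq0 (rwn N c) (rwn N' a) (fun ω => (rwn N' c ω, T ω))
    have e2 : CH q (fun ω => (rwn N c ω, rwn N' a ω)) (fun ω => (rwn N' c ω, T ω)) =
        CH q (fun ω => (rwn N' a ω, rwn N c ω)) (fun ω => (rwn N' c ω, T ω)) := by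
      refine CH_congr hq0 ?_ ?_ (fun _ _ _ _ h => h) (fun _ _ _ _ h => h) <;>
      · intro ω ω' _ _ hw
        simp only [Prod.mk.injEq] at hw ⊢
        tauto
    have e3 := CH_nonneg hq0 (rwn N c) (fun ω => (rwn N' a ω, (rwn N' c ω, T ω)))
    linarith only [e1, e2, e3]
  have h3 : CH q (rwn N c) (fun ω => (rwn N' c ω, T ω)) ≤ Real.log 2 := by
    refine CH_two hq _ _ fun z => ⟨z.1 - u / ((2 ^ c : ℕ) : ℤ) - 1, fun ω _ hz => ?_⟩
    have e1 : rwn N' c ω = z.1 := congrArg Prod.fst hz
    rcases rwn_shift N u c ω with h | h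
    · right
      have h' : rwn N' c ω = rwn N c ω + u / ((2 ^ c : ℕ) : ℤ) := h
      omega
    · left
      have h' : rwn N' c ω = rwn N c ω + u / ((2 ^ c : ℕ) : ℤ) + 1 := h
      omega
  have h4 : CH q (rwn N' a) (fun ω => (rwn N c ω, (rwn N' c ω, T ω))) ≤
      CH q (rwn N' a) (fun ω => (rwn N c ω, T ω)) := by
    refine CH_mono_cond hq0 ?_
    intro ω ω' _ _ hw
    simp only [Prod.mk.injEq] at hw ⊢
    exact ⟨hw.1, hw.2.2⟩
  have h5 := CH_chain hq0 (rwn N' a) (rwn N a) (fun ω => (rwn N c ω, T ω))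
  have h6 : CH q (rwn N' a) (fun ω => (rwn N c ω, T ω)) ≤
      CH q (fun ω => (rwn N' a ω, rwn N a ω)) (fun ω => (rwn N c ω, T ω)) := by
    have e1 := CH_chain hq0 (rwn N a) (rwn N' a) (fun ω => (rwn N c ω, T ω))
    have e2 : CH q (fun ω => (rwn N a ω, rwn N' a ω)) (fun ω => (rwn N c ω, T ω)) =
        CH q (fun ω => (rwn N' a ω, rwn N a ω)) (fun ω => (rwn N c ω, T ω)) := by
      refine CH_congr hq0 ?_ ?_ (fun _ _ _ _ h => h) (fun _ _ _ _ h => h) <;>
      · intro ω ω' _ _ hw
        simp only [Prod.mk.injEq] at hw ⊢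
        tauto
    have e3 := CH_nonneg hq0 (rwn N a) (fun ω => (rwn N' a ω, (rwn N c ω, T ω)))
    linarith only [e1, e2, e3]
  have h7 : CH q (rwn N' a) (fun ω => (rwn N a ω, (rwn N c ω, T ω))) ≤ Real.log 2 := by
    refine CH_two hq _ _ fun z => ⟨z.1 + u / ((2 ^ a : ℕ) : ℤ), fun ω _ hz => ?_⟩
    have e1 : rwn N a ω = z.1 := congrArg Prod.fst hz
    rcases rwn_shift N u a ω with h | h
    · left
      have h' : rwn N' a ω = rwn N a ω + u / ((2 ^ a : ℕ) : ℤ) := h
      omega
    · right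
      have h' : rwn N' a ω = rwn N a ω + u / ((2 ^ a : ℕ) : ℤ) + 1 := h
      omega
  linarith only [h1, h2, h3, h4, h5, h6, h7]

/-- The weight of a window at a sample: the proportion of the offsets in `U` for which the window
of the `K` rows above the level `κ` is not full at the cell of the sample. -/
noncomputable def wtU (p : Ω → ℝ) (N : Ω → ℤ) (T : Ω → θ) (K : ℕ) (thr : ℝ) (U : Finset ℤ)
    (κ : ℕ) (ω : Ω) : ℝ :=
  open Classical in
  (∑ u ∈ U, if rowH p (fun v => N v + u) κ K T ω ≤ K * Real.log 2 - thr then (1 : ℝ) else 0) / U.card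

theorem wtU_nonneg (p : Ω → ℝ) (N : Ω → ℤ) (T : Ω → θ) (K : ℕ) (thr : ℝ) (U : Finset ℤ)
    (κ : ℕ) (ω : Ω) : 0 ≤ wtU p N T K thr U κ ω := by
  classical
  unfold wtU
  refine div_nonneg (Finset.sum_nonneg fun u _ => ?_) (Nat.cast_nonneg _)
  split_ifs <;> norm_num

theorem wtU_le_one (p : Ω → ℝ) (N : Ω → ℤ) (T : Ω → θ) (K : ℕ) (thr : ℝ) (U : Finset ℤ)
    (κ : ℕ) (ω : Ω) : wtU p N T K thr U κ ω ≤ 1 := by
  classical
  unfold wtU
  refine div_le_one_of_le₀ ?_ (Nat.cast_nonneg _)
  calc _ ≤ ∑ _u ∈ U, (1 : ℝ) := Finset.sum_le_sum fun u _ => by split_ifs <;> norm_num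
    _ = U.card := by rw [sum_const, nsmul_eq_mul, mul_one]

/-- **Density of the nonfull rows.** -/
theorem nf_block (c π₀ thr : ℝ) (hc : 0 < c) (hπ : 0 < π₀) (hthr : 0 ≤ thr) (K : ℕ)
    (hK : 8 * (thr + Real.log 2) ≤ c * (K * Real.log 2)) :
    ∃ h₀ : ℕ, K ≤ h₀ ∧ ∀ h : ℕ, h₀ ≤ h → ∀ (Ω θ : Type) [Fintype Ω] (p : Ω → ℝ) (N : Ω → ℤ)
      (T : Ω → θ) (a : ℕ) (U : Finset ℤ), IsLaw p → U.Nonempty →
      (∀ E : Set Ω, π₀ ≤ Pr p E →
        CH (cond p (· ∈ E) True) (fun ω => N ω / ((2 ^ a : ℕ) : ℤ))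
          (fun ω => (N ω / ((2 ^ (a + h) : ℕ) : ℤ), T ω)) ≤ (1 - c) * (h * Real.log 2)) →
      Pr p {ω | ∑ j ∈ range (h - K), wtU p N T K thr U (a + j) ω < c / 4 * h} < π₀ := by
  classical
  have hl2 : 0 < Real.log 2 := Real.log_pos (by norm_num)
  have hKpos : (0 : ℝ) < K * Real.log 2 := by
    by_contra hcon
    have : c * (K * Real.log 2) ≤ 0 := mul_nonpos_of_nonneg_of_nonpos hc.le (not_lt.1 hcon)
    linarith only [hthr, hK, hl2, this]
  have hK1 : (0 : ℝ) < K := by
    rcases (Nat.cast_nonneg (α := ℝ) K).eq_or_lt with h | h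
    · rw [← h, zero_mul] at hKpos
      exact absurd hKpos (lt_irrefl _)
    · exact h
  set e : ℝ := (π₀ * c ^ 2 / 64) ^ 2 with he
  have he0 : 0 < e := by positivity
  obtain ⟨h₁, hh₁⟩ := exists_nat_ge ((K + 2) * 16 / c + 16 * (K * Real.log 2 / e) / (π₀ * c))
  refine ⟨max h₁ (K + 1), (Nat.le_succ K).trans (le_max_right _ _), ?_⟩
  intro h hh Ω θ _ p N T a U hp hU hH5
  by_contra hcon
  rw [not_lt] at hcon
  set E : Set Ω := {ω | ∑ j ∈ range (h - K), wtU p N T K thr U (a + j) ω < c / 4 * h} with hE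
  set P : ℝ := Pr p E with hP
  have hP0 : 0 < P := lt_of_lt_of_le hπ hcon
  have hKh : K ≤ h := ((Nat.le_succ K).trans (le_max_right h₁ _)).trans hh
  have hKh' : K + 1 ≤ h := (le_max_right h₁ _).trans hh
  have hn : h - K + K = h := Nat.sub_add_cancel hKh
  have hh₁' : (K + 2) * 16 / c + 16 * (K * Real.log 2 / e) / (π₀ * c) ≤ (h : ℝ) :=
    hh₁.trans (by exact_mod_cast (le_max_left h₁ _).trans hh)
  have hhpos : (0 : ℝ) < h := by
    have : 0 < h := by omega
    exact_mod_cast this
  have hPE : law p (· ∈ E) True = Pr p E := rfl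
  exact by
   have hq : IsLaw (cond p (· ∈ E) True) :=
     ⟨fun v => cond_nonneg hp.nonneg _ _ v, sum_cond p _ (by rw [hPE]; exact hP0.ne')⟩
   -- one offset
   have hone : ∀ u ∈ U, 3 / 8 * c * P * h ≤ ∑ j ∈ range (h - K),
       Pr p (E ∩ {ω | rowH p (fun v => N v + u) (a + j) K T ω ≤ K * Real.log 2 - thr}) := by
     intro u _
     have hA : CH (cond p (· ∈ E) True) (rwn (fun v => N v + u) a)
         (fun ω => (rwn (fun v => N v + u) (a + (h - K) + K) ω, T ω)) ≤
         (1 - c) * (h * Real.log 2) + 2 * Real.log 2 := by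
       have h1 := CH_shift hq N T u a (a + (h - K) + K)
       have h2 := hH5 E hcon
       have h3 : a + (h - K) + K = a + h := by omega
       rw [h3] at h1 ⊢
       exact h1.trans (by
         have h4 : CH (cond p (· ∈ E) True) (rwn N a) (fun ω => (rwn N (a + h) ω, T ω)) ≤
           (1 - c) * (h * Real.log 2) := h2
         linarith only [h4])
     have h1 := main_ineq hp (fun v => N v + u) T E hP0 a (h - K) K thr _ (c / 2) e (by positivity)
       he0 hthr hA
     set Sg : ℝ := ∑ j ∈ range (h - K),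
       Pr p (E ∩ {ω | rowH p (fun v => N v + u) (a + j) K T ω ≤ K * Real.log 2 - thr}) with hSg
     have hsq : Real.sqrt e = π₀ * c ^ 2 / 64 := by
       rw [he, Real.sqrt_sq (by positivity)]
     have hse : 2 * Real.sqrt e / (c / 2) = π₀ * c / 16 := by
       rw [hsq]
       field_simp
       ring
     rw [hse] at h1
     have hcast : ((h - K : ℕ) : ℝ) = (h : ℝ) - K := by
       rw [Nat.cast_sub hKh]
     rw [hcast] at h1
     -- divide by `K log 2`
     have t1 : (K + 2) * 16 / c ≤ (h : ℝ) := by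
       have : 0 ≤ 16 * (K * Real.log 2 / e) / (π₀ * c) := by positivity
       linarith only [hh₁', this]
     have t2 : 16 * (K * Real.log 2 / e) / (π₀ * c) ≤ (h : ℝ) := by
       have : 0 ≤ (K + 2 : ℝ) * 16 / c := by positivity
       linarith only [hh₁', this]
     have t1' : (K + 2 : ℝ) ≤ c * h / 16 := by
       rw [div_le_iff₀ hc] at t1
       linarith only [t1]
     have t2' : K * Real.log 2 / e ≤ π₀ * c * h / 16 := by
       rw [div_le_iff₀ (by positivity)] at t2
       linarith only [t2]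
     have hnn : (0 : ℝ) ≤ (h : ℝ) - K := by
       have : (K : ℝ) ≤ h := by exact_mod_cast hKh
       linarith only [hcast]
     have hπP : π₀ ≤ P := hcon
     -- collect
     have s1 : P * (((h : ℝ) - K) * (K * Real.log 2)) ≤
         P * (K * ((1 - c) * (h * Real.log 2) + 2 * Real.log 2)) +
         P * (((h : ℝ) - K) * (thr + Real.log 2)) +
         P * (((h : ℝ) - K) * (c / 4 * (K * Real.log 2))) +
         K * Real.log 2 * (Sg + (K * Real.log 2 / e + ((h : ℝ) - K) * (π₀ * c / 16))) := by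
       refine h1.trans (le_of_eq ?_)
       ring
     have s2 : P * (((h : ℝ) - K) * (thr + Real.log 2)) ≤ K * Real.log 2 * (P * (c / 8 * h)) := by
       have : ((h : ℝ) - K) * (thr + Real.log 2) ≤ h * (c * (K * Real.log 2) / 8) := by
         have e1 : thr + Real.log 2 ≤ c * (K * Real.log 2) / 8 := by linarith only [hK]
         have e2 : (h : ℝ) - K ≤ h := by linarith only [hK1]
         exact mul_le_mul e2 e1 (by positivity) hhpos.le
       calc _ ≤ P * (h * (c * (K * Real.log 2) / 8)) := mul_le_mul_of_nonneg_left this hP0.le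
         _ = _ := by ring
     have s3 : P * (((h : ℝ) - K) * (c / 4 * (K * Real.log 2))) ≤
         K * Real.log 2 * (P * (c / 4 * h)) := by
       have : ((h : ℝ) - K) * (c / 4 * (K * Real.log 2)) ≤ h * (c / 4 * (K * Real.log 2)) :=
         mul_le_mul_of_nonneg_right (by linarith only [hK1]) (by positivity)
       calc _ ≤ P * (h * (c / 4 * (K * Real.log 2))) := mul_le_mul_of_nonneg_left this hP0.le
         _ = _ := by ring
     have s4 : K * Real.log 2 / e + ((h : ℝ) - K) * (π₀ * c / 16) ≤ P * (c / 8 * h) := by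
       have e1 : ((h : ℝ) - K) * (π₀ * c / 16) ≤ h * (π₀ * c / 16) :=
         mul_le_mul_of_nonneg_right (by linarith only [hK1]) (by positivity)
       have e2 : π₀ * (c / 8 * h) ≤ P * (c / 8 * h) := mul_le_mul_of_nonneg_right hπP (by positivity)
       have e3 : π₀ * c * h / 16 + h * (π₀ * c / 16) = π₀ * (c / 8 * h) := by ring
       linarith only [t2', e1, e2]
     have s5 : K * Real.log 2 * (P * ((h : ℝ) - K)) ≤ K * Real.log 2 *
         (P * ((1 - c) * h + 2) + P * (c / 8 * h) + P * (c / 4 * h) + Sg + P * (c / 8 * h)) := by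
       have e1 := mul_le_mul_of_nonneg_left s4 hKpos.le
       calc K * Real.log 2 * (P * ((h : ℝ) - K)) = P * (((h : ℝ) - K) * (K * Real.log 2)) := by ring
         _ ≤ _ := s1
         _ ≤ P * (K * ((1 - c) * (h * Real.log 2) + 2 * Real.log 2)) +
             K * Real.log 2 * (P * (c / 8 * h)) + K * Real.log 2 * (P * (c / 4 * h)) +
             (K * Real.log 2 * Sg + K * Real.log 2 * (P * (c / 8 * h))) := by
           have e2 : K * Real.log 2 * (Sg + (K * Real.log 2 / e + ((h : ℝ) - K) * (π₀ * c / 16))) =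
             K * Real.log 2 * Sg + K * Real.log 2 *
               (K * Real.log 2 / e + ((h : ℝ) - K) * (π₀ * c / 16)) := by ring
           rw [e2]
           linarith only [s2, s3, e1]
         _ = _ := by ring
     have s6 := le_of_mul_le_mul_left s5 hKpos
     have s7 := mul_le_mul_of_nonneg_left t1' hP0.le
     nlinarith only [hπ, hcon, s6, s7]
   -- the average over the offsets
   exact by
    have hcard : (0 : ℝ) < U.card := by exact_mod_cast hU.card_pos
    have h2 : 3 / 8 * c * P * h ≤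
        ∑ ω, (if ω ∈ E then p ω else 0) * ∑ j ∈ range (h - K), wtU p N T K thr U (a + j) ω := by
      have h3 := Finset.sum_le_sum hone
      rw [sum_const, nsmul_eq_mul] at h3
      have h4 : ∑ u ∈ U, ∑ j ∈ range (h - K),
          Pr p (E ∩ {ω | rowH p (fun v => N v + u) (a + j) K T ω ≤ K * Real.log 2 - thr}) =
          U.card * ∑ ω, (if ω ∈ E then p ω else 0) *
            ∑ j ∈ range (h - K), wtU p N T K thr U (a + j) ω := by
        have h5 : ∀ (u : ℤ) (κ : ℕ), Pr p (E ∩ {ω | rowH p (fun v => N v + u) κ K T ω ≤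
            K * Real.log 2 - thr}) = ∑ ω, (if ω ∈ E then p ω else 0) *
              (if rowH p (fun v => N v + u) κ K T ω ≤ K * Real.log 2 - thr then (1 : ℝ) else 0) := by
          intro u κ
          rw [Pool.KAF.Pr_eq]
          refine Finset.sum_congr rfl fun ω _ => ?_
          by_cases c1 : ω ∈ E <;> by_cases c2 : rowH p (fun v => N v + u) κ K T ω ≤
            K * Real.log 2 - thr <;> simp [c1, c2]
        simp only [h5, Finset.mul_sum]
        rw [Finset.sum_comm]
        rw [Finset.sum_congr rfl fun j _ => Finset.sum_comm]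
        rw [Finset.sum_comm]
        refine Finset.sum_congr rfl fun ω _ => ?_
        refine Finset.sum_congr rfl fun j _ => ?_
        unfold wtU
        rw [← Finset.mul_sum]
        field_simp
      rw [h4] at h3
      exact le_of_mul_le_mul_left h3 hcard
    have h6 : ∑ ω, (if ω ∈ E then p ω else 0) * ∑ j ∈ range (h - K), wtU p N T K thr U (a + j) ω ≤
        P * (c / 4 * h) := by
      calc _ ≤ ∑ ω, (if ω ∈ E then p ω else 0) * (c / 4 * h) := by
            refine Finset.sum_le_sum fun ω _ => ?_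
            by_cases c1 : ω ∈ E
            · rw [if_pos c1]
              exact mul_le_mul_of_nonneg_left (le_of_lt c1) (hp.nonneg ω)
            · rw [if_neg c1, zero_mul, zero_mul]
        _ = _ := by rw [← Finset.sum_mul, sum_indicator]
    exact by
     have h7 : 0 < P * c * h := by positivity
     nlinarith only [h2, h6, h7]

end

end Pool.OC
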